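import Pool.Agent.Helper61.RC.Base2

/-!
# RC-10: density of finite sums in the crossed product
-/

open scoped ENNReal NNReal Topology CStarAlgebra ComplexOrder
open Filter

noncomputable section

namespace Pool.Agent.Helper61.RC

variable {X : Type*} [MetricSpace X] [CompactSpace X]

/-- The span of the products `f u^m`. -/
def monoSpan (h : X ≃ₜ X) : Submodule ℂ (Op X) :=
  Submodule.span ℂ (Set.range (fun p : C(X, ℂ) × ℤ => mulOp h p.1 * shiftZ X p.2))

theorem mono_mem (h : X ≃ₜ X) (f : C(X, ℂ)) (m : ℤ) :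
    mulOp h f * shiftZ X m ∈ monoSpan h := Submodule.subset_span ⟨(f, m), rfl⟩

theorem mono_mul_mono (h : X ≃ₜ X) (f g : C(X, ℂ)) (m l : ℤ) :
    (mulOp h f * shiftZ X m) * (mulOp h g * shiftZ X l)
      = mulOp h (f * g.comp ((h ^ (-m) : X ≃ₜ X) : C(X, X))) * shiftZ X (m + l) := by
  have := shiftZ_mul_mulOp h m g
  rw [mulOp_mul, shiftZ_add]
  calc (mulOp h f * shiftZ X m) * (mulOp h g * shiftZ X l)
      = mulOp h f * (shiftZ X m * mulOp h g) * shiftZ X l := by simp only [mul_assoc]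
    _ = _ := by rw [this]; simp only [mul_assoc]

theorem mul_mem_monoSpan (h : X ≃ₜ X) {S T : Op X} (hS : S ∈ monoSpan h) (hT : T ∈ monoSpan h) :
    S * T ∈ monoSpan h := by
  refine Submodule.span_induction (p := fun S _ => S * T ∈ monoSpan h) ?_ ?_ ?_ ?_ hS
  · rintro _ ⟨⟨f, m⟩, rfl⟩
    refine Submodule.span_induction
      (p := fun T _ => (mulOp h f * shiftZ X m) * T ∈ monoSpan h) ?_ ?_ ?_ ?_ hT
    · rintro _ ⟨⟨g, l⟩, rfl⟩
      show (mulOp h f * shiftZ X m) * (mulOp h g * shiftZ X l) ∈ monoSpan h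
      rw [mono_mul_mono]
      exact mono_mem h _ _
    · rw [mul_zero]; exact Submodule.zero_mem _
    · intro a b _ _ ha hb
      rw [mul_add]; exact Submodule.add_mem _ ha hb
    · intro c a _ ha
      rw [mul_smul_comm]; exact Submodule.smul_mem _ c ha
  · rw [zero_mul]; exact Submodule.zero_mem _
  · intro a b _ _ ha hb
    rw [add_mul]; exact Submodule.add_mem _ ha hb
  · intro c a _ ha
    rw [smul_mul_assoc]; exact Submodule.smul_mem _ c ha

theorem star_mem_monoSpan (h : X ≃ₜ X) {S : Op X} (hS : S ∈ monoSpan h) :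
    star S ∈ monoSpan h := by
  refine Submodule.span_induction (p := fun S _ => star S ∈ monoSpan h) ?_ ?_ ?_ ?_ hS
  · rintro _ ⟨⟨f, m⟩, rfl⟩
    show star (mulOp h f * shiftZ X m) ∈ monoSpan h
    rw [star_mul, star_shiftZ, ← mulOp_star, shiftZ_mul_mulOp]
    exact mono_mem h _ _
  · rw [star_zero]; exact Submodule.zero_mem _
  · intro a b _ _ ha hb
    rw [star_add]; exact Submodule.add_mem _ ha hb
  · intro c a _ ha
    rw [star_smul]; exact Submodule.smul_mem _ _ ha

theorem one_mem_monoSpan (h : X ≃ₜ X) : (1 : Op X) ∈ monoSpan h := by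
  have := mono_mem h 1 0
  rwa [mulOp_one, shiftZ_zero, one_mul] at this

/-- The star subalgebra of finite sums. -/
def monoAlg (h : X ≃ₜ X) : StarSubalgebra ℂ (Op X) where
  carrier := monoSpan h
  mul_mem' := fun ha hb => mul_mem_monoSpan h ha hb
  one_mem' := one_mem_monoSpan h
  add_mem' := fun ha hb => Submodule.add_mem _ ha hb
  zero_mem' := Submodule.zero_mem _
  algebraMap_mem' := fun c => by
    rw [Algebra.algebraMap_eq_smul_one]
    exact Submodule.smul_mem _ c (one_mem_monoSpan h)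
  star_mem' := fun ha => star_mem_monoSpan h ha

theorem crossSub_le (h : X ≃ₜ X) : crossSub h ≤ (monoAlg h).topologicalClosure := by
  apply StarSubalgebra.topologicalClosure_mono
  apply StarAlgebra.adjoin_le
  rintro T (⟨f, rfl⟩ | hT)
  · show mulOp h f ∈ monoSpan h
    have := mono_mem h f 0
    rwa [shiftZ_zero, mul_one] at this
  · rw [Set.mem_singleton_iff] at hT
    subst hT
    show shiftOp X ∈ monoSpan h
    have := mono_mem h 1 1
    rwa [mulOp_one, shiftZ_one, one_mul] at this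

/-- the normal form of the elements of the span -/
theorem exists_normal (h : X ≃ₜ X) {S : Op X} (hS : S ∈ monoSpan h) :
    ∃ (N : ℕ) (f : ℤ → C(X, ℂ)),
      S = ∑ m ∈ Finset.Icc (-(N : ℤ)) N, mulOp h (f m) * shiftZ X m := by
  classical
  refine Submodule.span_induction (p := fun S _ => ∃ (N : ℕ) (f : ℤ → C(X, ℂ)),
      S = ∑ m ∈ Finset.Icc (-(N : ℤ)) N, mulOp h (f m) * shiftZ X m) ?_ ?_ ?_ ?_ hS
  · rintro _ ⟨⟨f, m⟩, rfl⟩
    refine ⟨m.natAbs, fun l => if l = m then f else 0, ?_⟩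
    rw [Finset.sum_eq_single m]
    · simp
    · intro l _ hl
      simp [hl]
    · intro hm
      exfalso
      apply hm
      rw [Finset.mem_Icc]
      constructor <;> omega
  · exact ⟨0, fun _ => 0, by simp⟩
  · rintro a b _ _ ⟨N, f, rfl⟩ ⟨N', f', rfl⟩
    refine ⟨max N N', fun m => (if m ∈ Finset.Icc (-(N : ℤ)) N then f m else 0) +
      (if m ∈ Finset.Icc (-(N' : ℤ)) N' then f' m else 0), ?_⟩
    have e1 : ∑ m ∈ Finset.Icc (-(N : ℤ)) N, mulOp h (f m) * shiftZ X m
        = ∑ m ∈ Finset.Icc (-((max N N' : ℕ) : ℤ)) ((max N N' : ℕ) : ℤ),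
          mulOp h (if m ∈ Finset.Icc (-(N : ℤ)) N then f m else 0) * shiftZ X m := by
      symm
      rw [← Finset.sum_subset (s₁ := Finset.Icc (-(N : ℤ)) N)]
      · refine Finset.sum_congr rfl fun m hm => ?_
        rw [if_pos hm]
      · intro m hm
        rw [Finset.mem_Icc] at hm ⊢
        push_cast
        constructor
        · have := le_max_left (N : ℤ) (N' : ℤ); omega
        · have := le_max_left (N : ℤ) (N' : ℤ); omega
      · intro m _ hm
        rw [if_neg hm, mulOp_zero, zero_mul]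
    have e2 : ∑ m ∈ Finset.Icc (-(N' : ℤ)) N', mulOp h (f' m) * shiftZ X m
        = ∑ m ∈ Finset.Icc (-((max N N' : ℕ) : ℤ)) ((max N N' : ℕ) : ℤ),
          mulOp h (if m ∈ Finset.Icc (-(N' : ℤ)) N' then f' m else 0) * shiftZ X m := by
      symm
      rw [← Finset.sum_subset (s₁ := Finset.Icc (-(N' : ℤ)) N')]
      · refine Finset.sum_congr rfl fun m hm => ?_
        rw [if_pos hm]
      · intro m hm
        rw [Finset.mem_Icc] at hm ⊢
        push_cast
        constructor
        · have := le_max_right (N : ℤ) (N' : ℤ); omega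
        · have := le_max_right (N : ℤ) (N' : ℤ); omega
      · intro m _ hm
        rw [if_neg hm, mulOp_zero, zero_mul]
    rw [e1, e2, ← Finset.sum_add_distrib]
    refine Finset.sum_congr rfl fun m _ => ?_
    rw [mulOp_add, add_mul]
  · rintro c a _ ⟨N, f, rfl⟩
    refine ⟨N, fun m => c • f m, ?_⟩
    rw [Finset.smul_sum]
    refine Finset.sum_congr rfl fun m _ => ?_
    rw [mulOp_smul, smul_mul_assoc]

theorem cross_approx (h : X ≃ₜ X) (T : Cross h) (ε : ℝ) (hε : 0 < ε) :
    ∃ (N : ℕ) (f : ℤ → C(X, ℂ)),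
      ‖T - ∑ m ∈ Finset.Icc (-(N : ℤ)) N, cfunC h (f m) * uZ h m‖ < ε := by
  have h1 : val h T ∈ closure ((monoAlg h : StarSubalgebra ℂ (Op X)) : Set (Op X)) := by
    have := crossSub_le h (val_mem h T)
    rw [← SetLike.mem_coe, StarSubalgebra.topologicalClosure_coe] at this
    exact this
  obtain ⟨S, hS, hd⟩ := Metric.mem_closure_iff.1 h1 ε hε
  obtain ⟨N, f, rfl⟩ := exists_normal h (show S ∈ monoSpan h from hS)
  refine ⟨N, f, ?_⟩
  rw [← norm_val, map_sub, map_sum]
  rw [dist_eq_norm] at hd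
  have e : ∑ m ∈ Finset.Icc (-(N : ℤ)) N, val h (cfunC h (f m) * uZ h m)
      = ∑ m ∈ Finset.Icc (-(N : ℤ)) N, mulOp h (f m) * shiftZ X m := by
    refine Finset.sum_congr rfl fun m _ => ?_
    rw [map_mul, val_cfunC, val_uZ]
  rw [e]
  exact hd

end Pool.Agent.Helper61.RC
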