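import Pool.Agent.Helper61.RC.Base2

/-!
# RC-16: identities for `projOp` and `swapOp`
-/

open scoped ENNReal NNReal Topology CStarAlgebra ComplexOrder
open Filter

noncomputable section

namespace Pool.Agent.Helper61.RC

variable {X : Type*}

/-- The inverse of `swapOp`. -/
def unswapOp [TopologicalSpace X] (h : X ≃ₜ X) : Op X :=
  wop (fun q : ℤ × X => (q.1 - 1, h q.2)) (fun _ => 1) 1 (by simp)
    (by
      rintro ⟨p, x⟩ _ ⟨p', x'⟩ _ hab
      simp only [Prod.mk.injEq, sub_left_inj, EmbeddingLike.apply_eq_iff_eq] at hab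
      ext <;> simp [hab])

theorem swapOp_apply [TopologicalSpace X] (h : X ≃ₜ X) (ξ : L2 (ℤ × X)) (q : ℤ × X) :
    swapOp h ξ q = ξ (q.1 + 1, h.symm q.2) := by simp [swapOp]

theorem unswapOp_apply [TopologicalSpace X] (h : X ≃ₜ X) (ξ : L2 (ℤ × X)) (q : ℤ × X) :
    unswapOp h ξ q = ξ (q.1 - 1, h q.2) := by simp [unswapOp]

theorem star_swapOp [TopologicalSpace X] (h : X ≃ₜ X) : star (swapOp h) = unswapOp h := by
  rw [ContinuousLinearMap.star_eq_adjoint]
  refine wop_adjoint _ _ _ _ _ _ _ _ _ _ ?_ ?_
  · intro i _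
    simp
  · intro i _
    simp

section top
variable [MetricSpace X] [CompactSpace X]

theorem swapOp_unitary (h : X ≃ₜ X) : star (swapOp h) * swapOp h = 1 ∧
    swapOp h * star (swapOp h) = 1 := by
  rw [star_swapOp]
  constructor
  · refine op_ext fun ξ q => ?_
    rw [mul_apply_eq_comp, unswapOp_apply, swapOp_apply]
    simp
  · refine op_ext fun ξ q => ?_
    rw [mul_apply_eq_comp, swapOp_apply, unswapOp_apply]
    simp

theorem swapOp_mulOp (h : X ≃ₜ X) (f : C(X, ℂ)) : swapOp h * mulOp h f = mulOp h f * swapOp h := by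
  refine op_ext fun ξ q => ?_
  simp only [mul_apply_eq_comp, swapOp_apply, mulOp_apply]
  congr 2
  change (h ^ (q.1 + 1)) (h⁻¹ q.2) = (h ^ q.1) q.2
  rw [← Homeomorph.mul_apply, zpow_add, zpow_one, mul_assoc, mul_inv_cancel, mul_one]

theorem swapOp_shiftOp (h : X ≃ₜ X) : swapOp h * shiftOp X = shiftOp X * swapOp h := by
  refine op_ext fun ξ q => ?_
  simp only [mul_apply_eq_comp, swapOp_apply, shiftOp_apply]
  congr 2
  ring

theorem swapOp_comm (h : X ≃ₜ X) (T : Cross h) : swapOp h * val h T = val h T * swapOp h := by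
  have key : crossSub h ≤ StarSubalgebra.centralizer ℂ {swapOp h} := by
    apply StarSubalgebra.topologicalClosure_minimal
    · apply StarAlgebra.adjoin_le
      rintro T (⟨f, rfl⟩ | hT)
      · rw [SetLike.mem_coe, StarSubalgebra.mem_centralizer_iff]
        intro g hg
        rw [Set.mem_singleton_iff] at hg
        subst hg
        refine ⟨swapOp_mulOp h f, ?_⟩
        have := congrArg star (swapOp_mulOp h (star f))
        rw [star_mul, star_mul, ← mulOp_star, star_star] at this
        exact this.symm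
      · rw [Set.mem_singleton_iff] at hT
        subst hT
        rw [SetLike.mem_coe, StarSubalgebra.mem_centralizer_iff]
        intro g hg
        rw [Set.mem_singleton_iff] at hg
        subst hg
        refine ⟨swapOp_shiftOp h, ?_⟩
        rw [star_swapOp]
        refine op_ext fun ξ q => ?_
        simp only [mul_apply_eq_comp, unswapOp_apply, shiftOp_apply]
    · apply Set.isClosed_centralizer
  have := key (val_mem h T)
  rw [StarSubalgebra.mem_centralizer_iff] at this
  exact (this _ rfl).1

theorem star_projOp (n : ℕ) (i : ZMod n) : star (projOp X n i) = projOp X n i := by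
  rw [ContinuousLinearMap.star_eq_adjoint]
  refine wop_adjoint _ _ _ _ _ _ _ _ _ _ ?_ ?_
  · intro q _
    refine ⟨rfl, ?_⟩
    split_ifs <;> simp
  · intro q _
    refine ⟨rfl, ?_⟩
    split_ifs <;> simp

theorem projOp_mul_self (n : ℕ) (i : ZMod n) : projOp X n i * projOp X n i = projOp X n i := by
  refine op_ext fun ξ q => ?_
  simp only [mul_apply_eq_comp, projOp_apply]
  split_ifs <;> simp

theorem projOp_mul_ne (n : ℕ) (i j : ZMod n) (hij : i ≠ j) :
    projOp X n i * projOp X n j = 0 := by
  refine op_ext fun ξ q => ?_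
  simp only [mul_apply_eq_comp, projOp_apply]
  by_cases h1 : (q.1 : ZMod n) = i
  · have h2 : ¬ (q.1 : ZMod n) = j := fun h => hij (h1.symm.trans h)
    simp [h1, hij]
  · simp [h1]

theorem sum_projOp (n : ℕ) [NeZero n] : ∑ i : ZMod n, projOp X n i = 1 := by
  refine op_ext fun ξ q => ?_
  have : (∑ i : ZMod n, projOp X n i) ξ q = ∑ i : ZMod n, projOp X n i ξ q := by
    rw [ContinuousLinearMap.sum_apply, lp.coeFn_sum, Finset.sum_apply]
  rw [this]
  simp

theorem projOp_mulOp (h : X ≃ₜ X) (n : ℕ) (i : ZMod n) (f : C(X, ℂ)) :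
    projOp X n i * mulOp h f = mulOp h f * projOp X n i := by
  refine op_ext fun ξ q => ?_
  simp only [mul_apply_eq_comp, projOp_apply, mulOp_apply]
  ring

theorem projOp_shiftOp (n : ℕ) (i : ZMod n) :
    projOp X n i * shiftOp X = shiftOp X * projOp X n (i - 1) := by
  refine op_ext fun ξ q => ?_
  simp only [mul_apply_eq_comp, projOp_apply, shiftOp_apply]
  congr 1
  have : ((q.1 : ZMod n) = i) ↔ (((q.1 - 1 : ℤ) : ZMod n) = i - 1) := by
    push_cast
    constructor
    · rintro rfl; rfl
    · intro h; simpa using h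
  simp only [this]

theorem swapOp_projOp (h : X ≃ₜ X) (n : ℕ) (i : ZMod n) :
    swapOp h * projOp X n i * star (swapOp h) = projOp X n (i - 1) := by
  rw [star_swapOp]
  refine op_ext fun ξ q => ?_
  simp only [mul_apply_eq_comp, projOp_apply, swapOp_apply, unswapOp_apply]
  have : (((q.1 + 1 : ℤ) : ZMod n) = i) ↔ ((q.1 : ZMod n) = i - 1) := by
    push_cast
    constructor
    · rintro rfl; simp
    · intro h; rw [h]; simp
  simp only [this, add_sub_cancel_right, Homeomorph.apply_symm_apply]

end top

end Pool.Agent.Helper61.RC
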