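import Pool.Agent.Helper20.RC.Approx

/-!
# RC-17: identities for `cosetW`
-/

open scoped ENNReal NNReal Topology CStarAlgebra ComplexOrder
open Filter

noncomputable section

namespace Pool.Agent.Helper61.RC

variable {X : Type*}

/-- The adjoint of `cosetW`. -/
def cosetV (X : Type*) (n : ℕ) (i : Fin n) : Op X :=
  wop (fun q : ℤ × X => ((n : ℤ) * q.1 + (i : ℕ), q.2)) (fun _ => 1) 1 (by simp)
    (by
      have hn : (n : ℤ) ≠ 0 := by
        have := i.pos
        omega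
      rintro ⟨p, x⟩ _ ⟨p', x'⟩ _ hab
      simp only [Prod.mk.injEq, add_left_inj, mul_eq_mul_left_iff, hn, or_false] at hab
      exact Prod.ext hab.1 hab.2)

theorem cosetV_apply (n : ℕ) (i : Fin n) (ξ : L2 (ℤ × X)) (q : ℤ × X) :
    cosetV X n i ξ q = ξ ((n : ℤ) * q.1 + (i : ℕ), q.2) := by simp [cosetV]

theorem cosetW_apply (n : ℕ) (i : Fin n) (ξ : L2 (ℤ × X)) (q : ℤ × X) :
    cosetW X n i ξ q = (if (n : ℤ) ∣ q.1 - (i : ℕ) then 1 else 0) *
      ξ ((q.1 - (i : ℕ)) / (n : ℤ), q.2) := rfl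

theorem star_cosetW (n : ℕ) (i : Fin n) : star (cosetW X n i) = cosetV X n i := by
  have hn : (n : ℤ) ≠ 0 := by
    have := i.pos
    omega
  rw [ContinuousLinearMap.star_eq_adjoint]
  refine wop_adjoint _ _ _ _ _ _ _ _ _ _ ?_ ?_
  · rintro ⟨p, x⟩ hp
    by_cases hd : (n : ℤ) ∣ p - (i : ℕ)
    · obtain ⟨c, hc⟩ := hd
      have h1 : (p - (i : ℕ)) / (n : ℤ) = c := by rw [hc, Int.mul_ediv_cancel_left _ hn]
      refine ⟨?_, ?_⟩
      · simp only [h1]
        exact Prod.ext (by show (n : ℤ) * c + (i : ℕ) = p; linarith) rfl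
      · simp [hc]
    · exact absurd (if_neg hd) hp
  · rintro ⟨p, x⟩ _
    have h1 : ((n : ℤ) * p + (i : ℕ) - (i : ℕ)) / (n : ℤ) = p := by
      rw [add_sub_cancel_right, Int.mul_ediv_cancel_left _ hn]
    refine ⟨?_, ?_⟩
    · simp only [h1]
    · simp

/-- two residues below `n` -/
theorem fin_eq_of_dvd {n : ℕ} (i j : Fin n) (h : (n : ℤ) ∣ ((i : ℕ) : ℤ) - (j : ℕ)) : i = j := by
  have hi := i.isLt
  have hj := j.isLt
  obtain ⟨c, hc⟩ := h
  have hc0 : c = 0 := by
    by_contra hne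
    rcases lt_or_gt_of_ne hne with h | h
    · have : (n : ℤ) * c ≤ (n : ℤ) * (-1) := by
        apply mul_le_mul_of_nonneg_left <;> omega
      omega
    · have : (n : ℤ) * 1 ≤ (n : ℤ) * c := by
        apply mul_le_mul_of_nonneg_left <;> omega
      omega
  rw [hc0, mul_zero] at hc
  exact Fin.ext (by omega)

section top
variable [MetricSpace X] [CompactSpace X]

theorem star_cosetW_mul (n : ℕ) (i j : Fin n) :
    star (cosetW X n i) * cosetW X n j = if i = j then 1 else 0 := by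
  have hn : (n : ℤ) ≠ 0 := by
    have := i.pos
    omega
  rw [star_cosetW]
  refine op_ext fun ξ q => ?_
  rw [mul_apply_eq_comp, cosetV_apply, cosetW_apply]
  by_cases hij : i = j
  · subst hij
    have h1 : ((n : ℤ) * q.1 + (i : ℕ) - (i : ℕ)) = (n : ℤ) * q.1 := by ring
    simp only [h1, Int.mul_ediv_cancel_left _ hn, dvd_mul_right, if_true]
    simp
  · have h1 : ¬ (n : ℤ) ∣ (n : ℤ) * q.1 + (i : ℕ) - (j : ℕ) := by
      intro h
      apply hij
      apply fin_eq_of_dvd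
      have : ((i : ℕ) : ℤ) - (j : ℕ) = (n : ℤ) * q.1 + (i : ℕ) - (j : ℕ) - (n : ℤ) * q.1 := by ring
      rw [this]
      exact dvd_sub h (dvd_mul_right _ _)
    simp only [h1, if_false, hij]
    simp

theorem cosetW_mul_star (n : ℕ) (i : Fin n) :
    cosetW X n i * star (cosetW X n i) = projOp X n ((i : ℕ) : ZMod n) := by
  have hn : (n : ℤ) ≠ 0 := by
    have := i.pos
    omega
  rw [star_cosetW]
  refine op_ext fun ξ q => ?_
  rw [mul_apply_eq_comp, cosetW_apply, cosetV_apply, projOp_apply]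
  have h1 : (n : ℤ) ∣ q.1 - (i : ℕ) ↔ (q.1 : ZMod n) = ((i : ℕ) : ZMod n) := by
    rw [← Int.cast_natCast (R := ZMod n) (i : ℕ), eq_comm, ZMod.intCast_eq_intCast_iff_dvd_sub]
  by_cases hd : (n : ℤ) ∣ q.1 - (i : ℕ)
  · rw [if_pos hd, if_pos (h1.1 hd)]
    have h2 : (n : ℤ) * ((q.1 - (i : ℕ)) / (n : ℤ)) + (i : ℕ) = q.1 := by
      rw [Int.mul_ediv_cancel' hd]
      ring
    show 1 * ξ ((n : ℤ) * ((q.1 - (i : ℕ)) / (n : ℤ)) + (i : ℕ), q.2) = 1 * ξ q
    rw [h2]
  · rw [if_neg hd, if_neg (fun h => hd (h1.2 h)), zero_mul, zero_mul]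

theorem sum_cosetW_mul_star (n : ℕ) [NeZero n] :
    ∑ i : Fin n, cosetW X n i * star (cosetW X n i) = 1 := by
  refine op_ext fun ξ q => ?_
  have h1 : (∑ i : Fin n, cosetW X n i * star (cosetW X n i)) ξ q
      = ∑ i : Fin n, (if (q.1 : ZMod n) = ((i : ℕ) : ZMod n) then ξ q else 0) := by
    rw [ContinuousLinearMap.sum_apply, lp.coeFn_sum, Finset.sum_apply]
    refine Finset.sum_congr rfl fun i _ => ?_
    rw [cosetW_mul_star, projOp_apply]
    split_ifs <;> simp
  rw [h1]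
  have hnpos : 0 < n := Nat.pos_of_ne_zero (NeZero.ne n)
  -- the residue of `q.1`
  have hr : ∃ i : Fin n, (q.1 : ZMod n) = ((i : ℕ) : ZMod n) := by
    refine ⟨⟨(q.1 % n).toNat, ?_⟩, ?_⟩
    · have h2 := Int.emod_lt_of_pos q.1 (show (0 : ℤ) < n by omega)
      have h3 := Int.emod_nonneg q.1 (show (n : ℤ) ≠ 0 by omega)
      omega
    · have h3 := Int.emod_nonneg q.1 (show (n : ℤ) ≠ 0 by omega)
      rw [← Int.cast_natCast (R := ZMod n)]
      show (q.1 : ZMod n) = (((q.1 % n).toNat : ℤ) : ZMod n)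
      rw [Int.toNat_of_nonneg h3]
      simp
  obtain ⟨i, hi⟩ := hr
  rw [Finset.sum_eq_single i]
  · rw [if_pos hi]; rfl
  · intro j _ hji
    rw [if_neg]
    intro hj
    apply hji
    apply fin_eq_of_dvd
    have h4 : ((i : ℕ) : ZMod n) = ((j : ℕ) : ZMod n) := hi.symm.trans hj
    rw [← Int.cast_natCast (R := ZMod n) (i : ℕ), ← Int.cast_natCast (R := ZMod n) (j : ℕ),
      ZMod.intCast_eq_intCast_iff_dvd_sub] at h4
    exact h4
  · intro h; exact absurd (Finset.mem_univ i) h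

theorem coset_mulOp (h : X ≃ₜ X) (n : ℕ) (f : C(X, ℂ)) (i j : Fin n) :
    star (cosetW X n i) * mulOp h f * cosetW X n j
      = if i = j then mulOp (h ^ n) (f.comp ((h ^ ((i : ℕ) : ℤ) : X ≃ₜ X) : C(X, X))) else 0 := by
  have hn : (n : ℤ) ≠ 0 := by
    have := i.pos
    omega
  have h2 : mulOp h f * cosetW X n j =
      cosetW X n j * mulOp (h ^ n) (f.comp ((h ^ ((j : ℕ) : ℤ) : X ≃ₜ X) : C(X, X))) := by
    refine op_ext fun ξ q => ?_
    simp only [mul_apply_eq_comp, mulOp_apply, cosetW_apply, ContinuousMap.comp_apply]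
    by_cases hd : (n : ℤ) ∣ q.1 - (j : ℕ)
    · rw [if_pos hd]
      obtain ⟨c, hc⟩ := hd
      have h1 : (q.1 - (j : ℕ)) / (n : ℤ) = c := by rw [hc, Int.mul_ediv_cancel_left _ hn]
      rw [h1, one_mul, one_mul]
      congr 2
      change (h ^ q.1) q.2 = (h ^ ((j : ℕ) : ℤ)) (((h ^ n) ^ c) q.2)
      rw [← Homeomorph.mul_apply, ← zpow_natCast h n, ← zpow_mul, ← zpow_add]
      congr 2
      linarith
    · rw [if_neg hd]
      ring
  rw [mul_assoc, h2, ← mul_assoc, star_cosetW_mul]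
  by_cases hij : i = j
  · rw [if_pos hij, if_pos hij, one_mul, hij]
  · rw [if_neg hij, if_neg hij, zero_mul]

theorem coset_shift (n : ℕ) (i j : Fin n) :
    star (cosetW X n i) * shiftOp X * cosetW X n j
      = if (n : ℤ) ∣ ((i : ℕ) : ℤ) - 1 - (j : ℕ) then
          shiftZ X (-((((i : ℕ) : ℤ) - 1 - (j : ℕ)) / (n : ℤ))) else 0 := by
  have hn : (n : ℤ) ≠ 0 := by
    have := i.pos
    omega
  rw [star_cosetW]
  refine op_ext fun ξ q => ?_
  simp only [mul_apply_eq_comp, cosetV_apply, shiftOp_apply, cosetW_apply]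
  have e1 : (n : ℤ) * q.1 + (i : ℕ) - 1 - (j : ℕ) = (n : ℤ) * q.1 + (((i : ℕ) : ℤ) - 1 - (j : ℕ)) := by
    ring
  by_cases hd : (n : ℤ) ∣ ((i : ℕ) : ℤ) - 1 - (j : ℕ)
  · rw [if_pos hd]
    obtain ⟨c, hc⟩ := hd
    have h1 : (((i : ℕ) : ℤ) - 1 - (j : ℕ)) / (n : ℤ) = c := by
      rw [hc, Int.mul_ediv_cancel_left _ hn]
    have h3 : (n : ℤ) * q.1 + (i : ℕ) - 1 - (j : ℕ) = (n : ℤ) * (q.1 + c) := by
      rw [e1, hc]; ring
    rw [h1, h3, if_pos (dvd_mul_right _ _), Int.mul_ediv_cancel_left _ hn, one_mul, shiftZ_apply,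
      sub_neg_eq_add]
  · rw [if_neg hd, if_neg, zero_mul]
    · rfl
    · intro h
      apply hd
      rw [e1] at h
      exact (Int.dvd_add_right (dvd_mul_right _ _)).1 h

/-- The operators all of whose coset corners are in the crossed product of the power. -/
def cosetAlg (h : X ≃ₜ X) (n : ℕ) [NeZero n] : StarSubalgebra ℂ (Op X) where
  carrier := {S | ∀ i j : Fin n, star (cosetW X n i) * S * cosetW X n j ∈ crossSub (h ^ n)}
  mul_mem' := by
    intro S T hS hT i j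
    have : star (cosetW X n i) * (S * T) * cosetW X n j
        = ∑ l : Fin n, (star (cosetW X n i) * S * cosetW X n l) *
          (star (cosetW X n l) * T * cosetW X n j) := by
      calc star (cosetW X n i) * (S * T) * cosetW X n j
          = star (cosetW X n i) * S * (1 : Op X) * T * cosetW X n j := by
            simp only [mul_one, mul_assoc]
        _ = star (cosetW X n i) * S * (∑ l : Fin n, cosetW X n l * star (cosetW X n l)) * T
            * cosetW X n j := by rw [sum_cosetW_mul_star]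
        _ = _ := by
            simp only [Finset.mul_sum, Finset.sum_mul, mul_assoc]
    rw [this]
    exact sum_mem fun l _ => mul_mem (hS i l) (hT l j)
  one_mem' := by
    intro i j
    rw [mul_one, star_cosetW_mul]
    split_ifs
    · exact one_mem _
    · exact zero_mem _
  add_mem' := by
    intro S T hS hT i j
    rw [mul_add, add_mul]
    exact add_mem (hS i j) (hT i j)
  zero_mem' := by
    intro i j
    rw [mul_zero, zero_mul]
    exact zero_mem _
  algebraMap_mem' := by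
    intro c i j
    rw [Algebra.algebraMap_eq_smul_one, mul_smul_comm, mul_one, smul_mul_assoc, star_cosetW_mul]
    split_ifs
    · exact SMulMemClass.smul_mem c (one_mem _)
    · exact SMulMemClass.smul_mem c (zero_mem _)
  star_mem' := by
    intro S hS i j
    have := star_mem (hS j i)
    rwa [star_mul, star_mul, star_star, ← mul_assoc] at this

theorem crossSub_le_cosetAlg (h : X ≃ₜ X) (n : ℕ) [NeZero n] : crossSub h ≤ cosetAlg h n := by
  apply StarSubalgebra.topologicalClosure_minimal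
  · apply StarAlgebra.adjoin_le
    rintro T (⟨f, rfl⟩ | hT)
    · intro i j
      rw [coset_mulOp]
      split_ifs
      · exact mulOp_mem _ _
      · exact zero_mem _
    · rw [Set.mem_singleton_iff] at hT
      subst hT
      intro i j
      rw [coset_shift]
      split_ifs
      · exact shiftZ_mem _ _
      · exact zero_mem _
  · have : ((cosetAlg h n : StarSubalgebra ℂ (Op X)) : Set (Op X))
        = ⋂ i : Fin n, ⋂ j : Fin n, (fun S : Op X => star (cosetW X n i) * S * cosetW X n j) ⁻¹'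
          ((crossSub (h ^ n) : StarSubalgebra ℂ (Op X)) : Set (Op X)) := by
      ext S
      simp only [Set.mem_iInter, Set.mem_preimage, SetLike.mem_coe]
      rfl
    rw [this]
    refine isClosed_iInter fun i => isClosed_iInter fun j => IsClosed.preimage ?_
      (isClosed_crossSub (h ^ n))
    exact (continuous_const.mul continuous_id).mul continuous_const

theorem coset_mem (h : X ≃ₜ X) (n : ℕ) (T : Cross h) (i j : Fin n) :
    star (cosetW X n i) * val h T * cosetW X n j ∈ crossSub (h ^ n) := by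
  haveI : NeZero n := ⟨by have := i.pos; omega⟩
  exact crossSub_le_cosetAlg h n (val_mem h T) i j

theorem norm_cosetW_le (n : ℕ) (i : Fin n) : ‖cosetW X n i‖ ≤ 1 :=
  norm_wop_le _ _ _ _ _ zero_le_one

theorem coset_lift_mono (h : X ≃ₜ X) (n : ℕ) (f : C(X, ℂ)) (m : ℤ) (i j : Fin n) :
    cosetW X n i * (mulOp (h ^ n) f * shiftZ X m) * star (cosetW X n j)
      = projOp X n ((i : ℕ) : ZMod n) *
        (mulOp h (f.comp ((h ^ (-((i : ℕ) : ℤ)) : X ≃ₜ X) : C(X, X))) *
          shiftZ X ((n : ℤ) * m + (i : ℕ) - (j : ℕ))) := by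
  have hn : (n : ℤ) ≠ 0 := by
    have := i.pos
    omega
  rw [star_cosetW]
  refine op_ext fun ξ q => ?_
  simp only [mul_apply_eq_comp, cosetV_apply, shiftZ_apply, cosetW_apply, mulOp_apply,
    projOp_apply, ContinuousMap.comp_apply]
  have h1 : (n : ℤ) ∣ q.1 - (i : ℕ) ↔ (q.1 : ZMod n) = ((i : ℕ) : ZMod n) := by
    rw [← Int.cast_natCast (R := ZMod n) (i : ℕ), eq_comm, ZMod.intCast_eq_intCast_iff_dvd_sub]
  by_cases hd : (n : ℤ) ∣ q.1 - (i : ℕ)
  · rw [if_pos hd, if_pos (h1.1 hd), one_mul, one_mul]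
    obtain ⟨c, hc⟩ := hd
    have h2 : (q.1 - (i : ℕ)) / (n : ℤ) = c := by rw [hc, Int.mul_ediv_cancel_left _ hn]
    rw [h2]
    have h3 : (n : ℤ) * (c - m) + (j : ℕ) = q.1 - ((n : ℤ) * m + (i : ℕ) - (j : ℕ)) := by
      linarith
    rw [h3]
    congr 2
    change ((h ^ n) ^ c) q.2 = (h ^ (-((i : ℕ) : ℤ))) ((h ^ q.1) q.2)
    rw [← Homeomorph.mul_apply, ← zpow_natCast h n, ← zpow_mul, ← zpow_add]
    congr 2
    linarith
  · rw [if_neg hd, if_neg (fun h => hd (h1.2 h)), zero_mul, zero_mul]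

theorem coset_lift (h : X ≃ₜ X) (n : ℕ) (S : Cross (h ^ n)) (i j : Fin n) (ε : ℝ) (hε : 0 < ε) :
    ∃ T : Cross h, ‖cosetW X n i * val (h ^ n) S * star (cosetW X n j)
      - projOp X n ((i : ℕ) : ZMod n) * val h T‖ < ε := by
  obtain ⟨N, f, hf⟩ := cross_approx (h ^ n) S ε hε
  refine ⟨∑ m ∈ Finset.Icc (-(N : ℤ)) N,
    cfunC h ((f m).comp ((h ^ (-((i : ℕ) : ℤ)) : X ≃ₜ X) : C(X, X))) *
      uZ h ((n : ℤ) * m + (i : ℕ) - (j : ℕ)), ?_⟩
  have e1 : projOp X n ((i : ℕ) : ZMod n) * val h (∑ m ∈ Finset.Icc (-(N : ℤ)) N,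
      cfunC h ((f m).comp ((h ^ (-((i : ℕ) : ℤ)) : X ≃ₜ X) : C(X, X))) *
      uZ h ((n : ℤ) * m + (i : ℕ) - (j : ℕ)))
      = cosetW X n i * val (h ^ n) (∑ m ∈ Finset.Icc (-(N : ℤ)) N, cfunC (h ^ n) (f m) *
        uZ (h ^ n) m) * star (cosetW X n j) := by
    rw [map_sum, map_sum, Finset.mul_sum, Finset.mul_sum, Finset.sum_mul]
    refine Finset.sum_congr rfl fun m _ => ?_
    rw [map_mul, map_mul, val_cfunC, val_cfunC, val_uZ, val_uZ, coset_lift_mono]
  rw [e1]
  have e2 : cosetW X n i * val (h ^ n) S * star (cosetW X n j) -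
      cosetW X n i * val (h ^ n) (∑ m ∈ Finset.Icc (-(N : ℤ)) N, cfunC (h ^ n) (f m) *
        uZ (h ^ n) m) * star (cosetW X n j)
      = cosetW X n i * val (h ^ n) (S - ∑ m ∈ Finset.Icc (-(N : ℤ)) N, cfunC (h ^ n) (f m) *
        uZ (h ^ n) m) * star (cosetW X n j) := by
    rw [map_sub, mul_sub, sub_mul]
  rw [e2]
  refine lt_of_le_of_lt ?_ hf
  calc ‖cosetW X n i * val (h ^ n) (S - ∑ m ∈ Finset.Icc (-(N : ℤ)) N, cfunC (h ^ n) (f m) *
        uZ (h ^ n) m) * star (cosetW X n j)‖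
      ≤ ‖cosetW X n i * val (h ^ n) (S - ∑ m ∈ Finset.Icc (-(N : ℤ)) N, cfunC (h ^ n) (f m) *
        uZ (h ^ n) m)‖ * ‖star (cosetW X n j)‖ := norm_mul_le _ _
    _ ≤ (‖cosetW X n i‖ * ‖val (h ^ n) (S - ∑ m ∈ Finset.Icc (-(N : ℤ)) N, cfunC (h ^ n) (f m) *
        uZ (h ^ n) m)‖) * ‖star (cosetW X n j)‖ := by
        gcongr
        exact norm_mul_le _ _
    _ ≤ (1 * ‖val (h ^ n) (S - ∑ m ∈ Finset.Icc (-(N : ℤ)) N, cfunC (h ^ n) (f m) *
        uZ (h ^ n) m)‖) * 1 := by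
        gcongr
        · exact norm_cosetW_le n i
        · rw [star_cosetW]
          exact norm_wop_le _ _ _ _ _ zero_le_one
    _ = ‖S - ∑ m ∈ Finset.Icc (-(N : ℤ)) N, cfunC (h ^ n) (f m) * uZ (h ^ n) m‖ := by
        rw [one_mul, mul_one, norm_val]

end top

end Pool.Agent.Helper61.RC
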